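import Mathlib

set_option autoImplicit false

/-! # The join of two valuation rings and approximation for incomparable valuation rings -/

namespace Pool.Agent.Helper10.ETC

variable {F : Type*} [Field F]

/-- the products `y * z`, `y ∈ R`, `z ∈ S`, form a valuation ring -/
def prodRing (R S : ValuationSubring F) : ValuationSubring F where
  carrier := {x | ∃ y ∈ R, ∃ z ∈ S, x = y * z}
  mul_mem' := by
    rintro _ _ ⟨y, hy, z, hz, rfl⟩ ⟨y', hy', z', hz', rfl⟩
    exact ⟨y * y', R.mul_mem _ _ hy hy', z * z', S.mul_mem _ _ hz hz', by ring⟩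
  one_mem' := ⟨1, R.one_mem, 1, S.one_mem, by ring⟩
  add_mem' := by
    -- `s + t` for `s ∈ S`, `t ∈ R`
    have h1 : ∀ s ∈ S, ∀ t ∈ R, ∃ y ∈ R, ∃ z ∈ S, s + t = y * z := by
      intro s hs t ht
      by_cases htS : t ∈ S
      · exact ⟨1, R.one_mem, s + t, S.add_mem _ _ hs htS, by ring⟩
      · have ht0 : t ≠ 0 := by
          rintro rfl; exact htS S.zero_mem
        have hti : t⁻¹ ∈ S := (S.mem_or_inv_mem t).resolve_left htS
        exact ⟨t, ht, s * t⁻¹ + 1, S.add_mem _ _ (S.mul_mem _ _ hs hti) S.one_mem, by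
          field_simp⟩
    -- `1 + t s`
    have h2 : ∀ s ∈ S, ∀ t ∈ R, ∃ y ∈ R, ∃ z ∈ S, 1 + t * s = y * z := by
      intro s hs t ht
      by_cases htS : t ∈ S
      · exact ⟨1, R.one_mem, 1 + t * s, S.add_mem _ _ S.one_mem (S.mul_mem _ _ htS hs), by ring⟩
      · have ht0 : t ≠ 0 := by
          rintro rfl; exact htS S.zero_mem
        have hti : t⁻¹ ∈ S := (S.mem_or_inv_mem t).resolve_left htS
        exact ⟨t, ht, t⁻¹ + s, S.add_mem _ _ hti hs, by field_simp⟩
    have h3 : ∀ y ∈ R, ∀ z ∈ S, ∀ t ∈ R, ∀ z' ∈ S, ∃ y₁ ∈ R, ∃ z₁ ∈ S,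
        y * z + y * t * z' = y₁ * z₁ := by
      intro y hy z hz t ht z' hz'
      by_cases hz0 : z = 0
      · exact ⟨y * t, R.mul_mem _ _ hy ht, z', hz', by rw [hz0]; ring⟩
      by_cases hz0' : z' = 0
      · exact ⟨y, hy, z, hz, by rw [hz0']; ring⟩
      rcases S.mem_or_inv_mem (z' * z⁻¹) with h | h
      · obtain ⟨y₁, hy₁, z₁, hz₁, e⟩ := h2 _ h t ht
        refine ⟨y * y₁, R.mul_mem _ _ hy hy₁, z * z₁, S.mul_mem _ _ hz hz₁, ?_⟩
        have : y * y₁ * (z * z₁) = y * z * (y₁ * z₁) := by ring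
        rw [this, ← e]
        field_simp
      · obtain ⟨y₁, hy₁, z₁, hz₁, e⟩ := h1 _ h t ht
        refine ⟨y * y₁, R.mul_mem _ _ hy hy₁, z' * z₁, S.mul_mem _ _ hz' hz₁, ?_⟩
        have : y * y₁ * (z' * z₁) = y * z' * (y₁ * z₁) := by ring
        rw [this, ← e]
        field_simp
    rintro _ _ ⟨y, hy, z, hz, rfl⟩ ⟨y', hy', z', hz', rfl⟩
    by_cases hy0 : y = 0
    · exact ⟨y', hy', z', hz', by rw [hy0]; ring⟩
    by_cases hy0' : y' = 0
    · exact ⟨y, hy, z, hz, by rw [hy0']; ring⟩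
    rcases R.mem_or_inv_mem (y' * y⁻¹) with h | h
    · obtain ⟨y₁, hy₁, z₁, hz₁, e⟩ := h3 y hy z hz _ h z' hz'
      refine ⟨y₁, hy₁, z₁, hz₁, ?_⟩
      rw [← e]
      field_simp
    · obtain ⟨y₁, hy₁, z₁, hz₁, e⟩ := h3 y' hy' z' hz' _ h z hz
      refine ⟨y₁, hy₁, z₁, hz₁, ?_⟩
      rw [← e]
      field_simp
      ring
  zero_mem' := ⟨0, R.zero_mem, 1, S.one_mem, by ring⟩
  neg_mem' := by
    rintro _ ⟨y, hy, z, hz, rfl⟩
    exact ⟨-y, R.neg_mem _ hy, z, hz, by ring⟩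
  mem_or_inv_mem' := by
    intro x
    rcases R.mem_or_inv_mem x with h | h
    · exact Or.inl ⟨x, h, 1, S.one_mem, by ring⟩
    · exact Or.inr ⟨x⁻¹, h, 1, S.one_mem, by ring⟩

/-- the elements of the join are the products -/
theorem mem_sup_iff {R S : ValuationSubring F} {x : F} :
    x ∈ R ⊔ S ↔ ∃ y ∈ R, ∃ z ∈ S, x = y * z := by
  constructor
  · intro hx
    have h : R ⊔ S ≤ prodRing R S := by
      refine sup_le ?_ ?_
      · intro y hy
        exact ⟨y, hy, 1, S.one_mem, by ring⟩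
      · intro z hz
        exact ⟨1, R.one_mem, z, hz, by ring⟩
    exact h hx
  · rintro ⟨y, hy, z, hz, rfl⟩
    exact (R ⊔ S).mul_mem _ _ ((le_sup_left : R ≤ R ⊔ S) hy) ((le_sup_right : S ≤ R ⊔ S) hz)

/-- an element which is small for `R` and large for `S` -/
theorem exists_sep {R S : ValuationSubring F} (h1 : ¬ R ≤ S) (h2 : ¬ S ≤ R) :
    ∃ c : Fˣ, R.valuation (c : F) < 1 ∧ 1 < S.valuation (c : F) := by
  obtain ⟨s, hs, hs'⟩ := Set.not_subset.1 h1
  obtain ⟨t, ht, ht'⟩ := Set.not_subset.1 h2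
  have hs' : s ∉ S := hs'
  have ht' : t ∉ R := ht'
  have hs : s ∈ R := hs
  have ht : t ∈ S := ht
  have hs0 : s ≠ 0 := by rintro rfl; exact hs' S.zero_mem
  have ht0 : t ≠ 0 := by rintro rfl; exact ht' R.zero_mem
  have a1 : R.valuation s ≤ 1 := (R.valuation_le_one_iff s).2 hs
  have a2 : 1 < S.valuation s := by
    rw [← not_le, S.valuation_le_one_iff]; exact hs'
  have b1 : S.valuation t ≤ 1 := (S.valuation_le_one_iff t).2 ht
  have b2 : 1 < R.valuation t := by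
    rw [← not_le, R.valuation_le_one_iff]; exact ht'
  have ht0R : 0 < R.valuation t := lt_trans zero_lt_one b2
  have ht0S : 0 < S.valuation t := by
    rw [zero_lt_iff, Valuation.ne_zero_iff]; exact ht0
  refine ⟨Units.mk0 (s / t) (div_ne_zero hs0 ht0), ?_, ?_⟩
  · rw [Units.val_mk0, map_div₀, div_lt_one₀ ht0R]
    exact lt_of_le_of_lt a1 b2
  · rw [Units.val_mk0, map_div₀, one_lt_div₀ ht0S]
    exact lt_of_le_of_lt b1 a2

/-- (W) -/
theorem exists_w {R S : ValuationSubring F} (h1 : ¬ R ≤ S) (h2 : ¬ S ≤ R) (a b : Fˣ)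
    (ha : ((a⁻¹ : Fˣ) : F) ∈ R ⊔ S) (hb : ((b⁻¹ : Fˣ) : F) ∈ R ⊔ S) :
    ∃ w : Fˣ, R.valuation (w : F) < R.valuation (a : F) ∧
      S.valuation ((w⁻¹ : Fˣ) : F) < S.valuation (b : F) := by
  obtain ⟨c, hc1, hc2⟩ := exists_sep h1 h2
  obtain ⟨y, hy, z, hz, e⟩ := mem_sup_iff.1 ((R ⊔ S).mul_mem _ _ ha hb)
  have hab : ((a⁻¹ : Fˣ) : F) * ((b⁻¹ : Fˣ) : F) ≠ 0 :=
    mul_ne_zero (Units.ne_zero _) (Units.ne_zero _)
  have hy0 : y ≠ 0 := by
    rintro rfl; rw [zero_mul] at e; exact hab e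
  have hz0 : z ≠ 0 := by
    rintro rfl; rw [mul_zero] at e; exact hab e
  have haR : 0 < R.valuation (a : F) := by
    rw [zero_lt_iff, Valuation.ne_zero_iff]; exact a.ne_zero
  have hbS : 0 < S.valuation (b : F) := by
    rw [zero_lt_iff, Valuation.ne_zero_iff]; exact b.ne_zero
  refine ⟨a * Units.mk0 y hy0 * c, ?_, ?_⟩
  · have hy1 : R.valuation y ≤ 1 := (R.valuation_le_one_iff y).2 hy
    have h3 : R.valuation y * R.valuation (c : F) < 1 := by
      calc R.valuation y * R.valuation (c : F) ≤ 1 * R.valuation (c : F) :=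
            mul_le_mul_left hy1 _
        _ = R.valuation (c : F) := one_mul _
        _ < 1 := hc1
    rw [Units.val_mul, Units.val_mul, Units.val_mk0, map_mul, map_mul, mul_assoc]
    calc R.valuation (a : F) * (R.valuation y * R.valuation (c : F))
        < R.valuation (a : F) * 1 := mul_lt_mul_of_pos_left h3 haR
      _ = R.valuation (a : F) := mul_one _
  · have hz1 : S.valuation z ≤ 1 := (S.valuation_le_one_iff z).2 hz
    have hcS : 0 < S.valuation (c : F) := lt_trans zero_lt_one hc2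
    have e2 : ((a * Units.mk0 y hy0 * c)⁻¹ : F) = b * (z * (c : F)⁻¹) := by
      have e' : ((a : F))⁻¹ * ((b : F))⁻¹ = y * z := by
        rw [← Units.val_inv_eq_inv_val, ← Units.val_inv_eq_inv_val]; exact e
      have ha0 : (a : F) ≠ 0 := a.ne_zero
      have hb0 : (b : F) ≠ 0 := b.ne_zero
      have hc0 : (c : F) ≠ 0 := c.ne_zero
      rw [Units.val_mk0]
      field_simp
      field_simp at e'
      linear_combination e'
    rw [Units.val_inv_eq_inv_val, Units.val_mul, Units.val_mul, e2, map_mul, map_mul, map_inv₀]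
    have h3 : S.valuation z * (S.valuation (c : F))⁻¹ < 1 := by
      calc S.valuation z * (S.valuation (c : F))⁻¹ ≤ 1 * (S.valuation (c : F))⁻¹ :=
            mul_le_mul_left hz1 _
        _ = (S.valuation (c : F))⁻¹ := one_mul _
        _ < 1 := inv_lt_one_of_one_lt₀ hc2
    calc S.valuation (b : F) * (S.valuation z * (S.valuation (c : F))⁻¹)
        < S.valuation (b : F) * 1 := mul_lt_mul_of_pos_left h3 hbS
      _ = S.valuation (b : F) := mul_one _

/-- `z` near `1` for `R` and near `0` for `S` -/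
theorem exists_z {R S : ValuationSubring F} (h1 : ¬ R ≤ S) (h2 : ¬ S ≤ R) (a b : Fˣ)
    (ha : ((a⁻¹ : Fˣ) : F) ∈ R ⊔ S) (hb : ((b⁻¹ : Fˣ) : F) ∈ R ⊔ S)
    (ha1 : R.valuation (a : F) ≤ 1) (hb1 : S.valuation (b : F) ≤ 1) :
    ∃ z : F, R.valuation (z - 1) < R.valuation (a : F) ∧
      S.valuation z < S.valuation (b : F) := by
  obtain ⟨w, hw1, hw2⟩ := exists_w h1 h2 a b ha hb
  have hwR : R.valuation (w : F) < 1 := lt_of_lt_of_le hw1 ha1
  have hw0 : (w : F) ≠ 0 := w.ne_zero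
  have hwS : 1 < S.valuation (w : F) := by
    have : S.valuation ((w⁻¹ : Fˣ) : F) < 1 := lt_of_lt_of_le hw2 hb1
    rw [Units.val_inv_eq_inv_val, map_inv₀] at this
    rw [← inv_inv (S.valuation (w : F))]
    exact (one_lt_inv₀ (by
      rw [zero_lt_iff]; exact inv_ne_zero (by rw [Valuation.ne_zero_iff]; exact hw0))).2 this
  have e1 : R.valuation (1 + w : F) = 1 := Valuation.map_one_add_of_lt _ hwR
  have e2 : S.valuation (1 + w : F) = S.valuation (w : F) := by
    refine Valuation.map_add_eq_of_lt_right _ ?_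
    rwa [map_one]
  have h0 : (1 + w : F) ≠ 0 := by
    intro h
    rw [h, map_zero] at e1
    exact zero_ne_one e1
  refine ⟨(1 + w : F)⁻¹, ?_, ?_⟩
  · have e3 : (1 + w : F)⁻¹ - 1 = -((w : F) * (1 + w : F)⁻¹) := by
      field_simp
      ring
    rw [e3, Valuation.map_neg, map_mul, map_inv₀, e1, inv_one, mul_one]
    exact hw1
  · rw [map_inv₀, e2, ← map_inv₀, ← Units.val_inv_eq_inv_val]
    exact hw2

/-- (A) approximation of `u` at `R` and of `1` at `S`, for a unit `u` of the join -/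
theorem exists_approx {R S : ValuationSubring F} (h1 : ¬ R ≤ S) (h2 : ¬ S ≤ R) (a b u : Fˣ)
    (ha : ((a⁻¹ : Fˣ) : F) ∈ R ⊔ S) (hb : ((b⁻¹ : Fˣ) : F) ∈ R ⊔ S)
    (ha1 : R.valuation (a : F) ≤ 1) (hb1 : S.valuation (b : F) ≤ 1)
    (hu : (u : F) ∈ R ⊔ S) (hu' : ((u⁻¹ : Fˣ) : F) ∈ R ⊔ S) :
    ∃ x : Fˣ, R.valuation ((x : F) / u - 1) < R.valuation (a : F) ∧
      S.valuation ((x : F) - 1) < S.valuation (b : F) := by
  have haR : 0 < R.valuation (a : F) := by
    rw [zero_lt_iff, Valuation.ne_zero_iff]; exact a.ne_zero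
  have hbS : 0 < S.valuation (b : F) := by
    rw [zero_lt_iff, Valuation.ne_zero_iff]; exact b.ne_zero
  have hu0 : (u : F) ≠ 0 := u.ne_zero
  -- the precision at `R`
  obtain ⟨a', ha', ha1', ha2'⟩ : ∃ a' : Fˣ, ((a'⁻¹ : Fˣ) : F) ∈ R ⊔ S ∧
      R.valuation (a' : F) ≤ R.valuation (a : F) ∧
      R.valuation (a' : F) * R.valuation (1 - (u : F)⁻¹) ≤ R.valuation (a : F) := by
    by_cases h : 1 - (u : F)⁻¹ ∈ R
    · refine ⟨a, ha, le_rfl, ?_⟩
      calc R.valuation (a : F) * R.valuation (1 - (u : F)⁻¹) ≤ R.valuation (a : F) * 1 :=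
            mul_le_mul_right ((R.valuation_le_one_iff _).2 h) _
        _ = R.valuation (a : F) := mul_one _
    · have h' : 1 < R.valuation (1 - (u : F)⁻¹) := by
        rw [← not_le, R.valuation_le_one_iff]; exact h
      have h0 : 1 - (u : F)⁻¹ ≠ 0 := by
        intro h0; rw [h0] at h; exact h R.zero_mem
      have hpos : 0 < R.valuation (1 - (u : F)⁻¹) := lt_trans zero_lt_one h'
      refine ⟨a / Units.mk0 _ h0, ?_, ?_, ?_⟩
      · rw [inv_div, Units.val_div_eq_div_val, Units.val_mk0, div_eq_mul_inv,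
          ← Units.val_inv_eq_inv_val a]
        refine (R ⊔ S).mul_mem _ _ ((R ⊔ S).sub_mem (R ⊔ S).one_mem ?_) ha
        rw [← Units.val_inv_eq_inv_val]; exact hu'
      · rw [Units.val_div_eq_div_val, Units.val_mk0, map_div₀, div_le_iff₀ hpos]
        calc R.valuation (a : F) = R.valuation (a : F) * 1 := (mul_one _).symm
          _ ≤ _ := mul_le_mul_right h'.le _
      · rw [Units.val_div_eq_div_val, Units.val_mk0, map_div₀, div_mul_cancel₀ _ hpos.ne']
  obtain ⟨b', hb', hb1', hb2'⟩ : ∃ b' : Fˣ, ((b'⁻¹ : Fˣ) : F) ∈ R ⊔ S ∧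
      S.valuation (b' : F) ≤ S.valuation (b : F) ∧
      S.valuation ((u : F) - 1) * S.valuation (b' : F) ≤ S.valuation (b : F) := by
    by_cases h : (u : F) - 1 ∈ S
    · refine ⟨b, hb, le_rfl, ?_⟩
      calc S.valuation ((u : F) - 1) * S.valuation (b : F) ≤ 1 * S.valuation (b : F) :=
            mul_le_mul_left ((S.valuation_le_one_iff _).2 h) _
        _ = S.valuation (b : F) := one_mul _
    · have h' : 1 < S.valuation ((u : F) - 1) := by
        rw [← not_le, S.valuation_le_one_iff]; exact h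
      have h0 : (u : F) - 1 ≠ 0 := by
        intro h0; rw [h0] at h; exact h S.zero_mem
      have hpos : 0 < S.valuation ((u : F) - 1) := lt_trans zero_lt_one h'
      refine ⟨b / Units.mk0 _ h0, ?_, ?_, ?_⟩
      · rw [inv_div, Units.val_div_eq_div_val, Units.val_mk0, div_eq_mul_inv,
          ← Units.val_inv_eq_inv_val b]
        exact (R ⊔ S).mul_mem _ _ ((R ⊔ S).sub_mem hu (R ⊔ S).one_mem) hb
      · rw [Units.val_div_eq_div_val, Units.val_mk0, map_div₀, div_le_iff₀ hpos]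
        calc S.valuation (b : F) = S.valuation (b : F) * 1 := (mul_one _).symm
          _ ≤ _ := mul_le_mul_right h'.le _
      · rw [Units.val_div_eq_div_val, Units.val_mk0, map_div₀, mul_div_cancel₀ _ hpos.ne']
  obtain ⟨z, hz1, hz2⟩ := exists_z h1 h2 a' b' ha' hb' (ha1'.trans ha1) (hb1'.trans hb1)
  have hA : R.valuation ((u * z + (1 - z) : F) / u - 1) < R.valuation (a : F) := by
    have e : (u * z + (1 - z) : F) / u - 1 = (z - 1) * (1 - (u : F)⁻¹) := by
      field_simp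
      ring
    rw [e, map_mul]
    rcases eq_or_ne (1 - (u : F)⁻¹) 0 with h0 | h0
    · rw [h0, map_zero, mul_zero]; exact haR
    · refine lt_of_lt_of_le ?_ ha2'
      refine mul_lt_mul_of_pos_right hz1 ?_
      rw [zero_lt_iff, Valuation.ne_zero_iff]; exact h0
  have hB : S.valuation ((u * z + (1 - z) : F) - 1) < S.valuation (b : F) := by
    have e : (u * z + (1 - z) : F) - 1 = (u - 1) * z := by ring
    rw [e, map_mul]
    rcases eq_or_ne ((u : F) - 1) 0 with h0 | h0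
    · rw [h0, map_zero, zero_mul]; exact hbS
    · refine lt_of_lt_of_le ?_ hb2'
      refine mul_lt_mul_of_pos_left hz2 ?_
      rw [zero_lt_iff, Valuation.ne_zero_iff]; exact h0
  have hx0 : (u * z + (1 - z) : F) ≠ 0 := by
    intro h
    rw [h, zero_sub, Valuation.map_neg, map_one] at hB
    exact absurd hB (not_lt.2 hb1)
  exact ⟨Units.mk0 _ hx0, by rw [Units.val_mk0]; exact hA, by rw [Units.val_mk0]; exact hB⟩

/-- (U) every unit `u` of the join is `u₁ u₂` with `|u₁ - 1| < |a|` for `R` and `|u₂ - 1| < |b|`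
for `S` -/
theorem unit_eq_mul {R S : ValuationSubring F} (h1 : ¬ R ≤ S) (h2 : ¬ S ≤ R) (a b u : Fˣ)
    (ha : ((a⁻¹ : Fˣ) : F) ∈ R ⊔ S) (hb : ((b⁻¹ : Fˣ) : F) ∈ R ⊔ S)
    (ha1 : R.valuation (a : F) ≤ 1) (hb1 : S.valuation (b : F) ≤ 1)
    (hu : (u : F) ∈ R ⊔ S) (hu' : ((u⁻¹ : Fˣ) : F) ∈ R ⊔ S) :
    ∃ u₁ u₂ : Fˣ, u = u₁ * u₂ ∧ R.valuation ((u₁ : F) - 1) < R.valuation (a : F) ∧
      S.valuation ((u₂ : F) - 1) < S.valuation (b : F) := by
  obtain ⟨x, hx1, hx2⟩ := exists_approx h1 h2 a b u ha hb ha1 hb1 hu hu'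
  refine ⟨u / x, x, by rw [div_mul_cancel], ?_, hx2⟩
  have hu0 : (u : F) ≠ 0 := u.ne_zero
  have hx0 : (x : F) ≠ 0 := x.ne_zero
  have e1 : R.valuation ((x : F) / u) = 1 := by
    have e : (x : F) / u = 1 + ((x : F) / u - 1) := by ring
    rw [e]
    exact Valuation.map_one_add_of_lt _ (lt_of_lt_of_le hx1 ha1)
  have e2 : ((u / x : Fˣ) : F) - 1 = -(((x : F) / u - 1) * ((x : F) / u)⁻¹) := by
    rw [Units.val_div_eq_div_val]
    field_simp
    ring
  rw [e2, Valuation.map_neg, map_mul, map_inv₀, e1, inv_one, mul_one]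
  exact hx1

/-- (U) in terms of the valuation of the join -/
theorem unit_eq_mul' {R S : ValuationSubring F} (h1 : ¬ R ≤ S) (h2 : ¬ S ≤ R) (a b u : Fˣ)
    (ha : (R ⊔ S).valuation (a : F) = 1) (hb : (R ⊔ S).valuation (b : F) = 1)
    (ha1 : R.valuation (a : F) ≤ 1) (hb1 : S.valuation (b : F) ≤ 1)
    (hu : (R ⊔ S).valuation (u : F) = 1) :
    ∃ u₁ u₂ : Fˣ, u = u₁ * u₂ ∧ R.valuation ((u₁ : F) - 1) < R.valuation (a : F) ∧
      S.valuation ((u₂ : F) - 1) < S.valuation (b : F) := by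
  have h : ∀ c : Fˣ, (R ⊔ S).valuation (c : F) = 1 →
      (c : F) ∈ R ⊔ S ∧ ((c⁻¹ : Fˣ) : F) ∈ R ⊔ S := by
    intro c hc
    constructor
    · rw [← ValuationSubring.valuation_le_one_iff]; exact hc.le
    · rw [← ValuationSubring.valuation_le_one_iff, Units.val_inv_eq_inv_val, map_inv₀, hc, inv_one]
  exact unit_eq_mul h1 h2 a b u (h a ha).2 (h b hb).2 ha1 hb1 (h u hu).1 (h u hu).2

/-- units of the join are products of one-units -/
theorem unit_eq_one_units {R S : ValuationSubring F} (h1 : ¬ R ≤ S) (h2 : ¬ S ≤ R) (u : Fˣ)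
    (hu : (R ⊔ S).valuation (u : F) = 1) :
    ∃ u₁ u₂ : Fˣ, u = u₁ * u₂ ∧ R.valuation ((u₁ : F) - 1) < 1 ∧
      S.valuation ((u₂ : F) - 1) < 1 := by
  have := unit_eq_mul' h1 h2 1 1 u (by rw [Units.val_one, map_one]) (by rw [Units.val_one, map_one])
    (by rw [Units.val_one, map_one]) (by rw [Units.val_one, map_one]) hu
  simpa only [Units.val_one, map_one] using this

end Pool.Agent.Helper10.ETC
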