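import Mathlib
import Pool.Agent.ETC.Base
import Pool.Agent.Helper99.ER.Inv

set_option autoImplicit false

/-! # Involutions as places: local symbols, closedness, restriction, first cohomology -/

namespace Pool.Agent.Helper10.ETC

open Pool.Agent.ETC
open Pool.Agent.Helper99.ER (Sq Inv Pos mem_Pos)
open Pool.Agent.Helper59.EA (IsCoc CobOn Cob)

variable {F K : Type} [Field F] [Field K] [Algebra F K]

/-! ### Kummer characters for `p = 2` -/

open Classical in
/-- the quadratic character of the square root `α` -/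
noncomputable def qchi (α : K) (g : K ≃ₐ[F] K) : ZMod 2 := if g α = α then 0 else 1

lemma zmod2_cases (a : ZMod 2) : a = 0 ∨ a = 1 := by
  fin_cases a
  · exact Or.inl rfl
  · exact Or.inr rfl

lemma val_zero2 : (0 : ZMod 2).val = 0 := rfl

lemma val_one2 : (1 : ZMod 2).val = 1 := rfl

lemma sq_root_cases {α β : K} (h : α ^ 2 = β ^ 2) : β = α ∨ β = -α := by
  rcases sq_eq_sq_iff_eq_or_eq_neg.1 h with h1 | h1
  · exact Or.inl h1.symm
  · right
    rw [h1, neg_neg]

lemma root_cases {a : Fˣ} {α : K} (hα : α ^ 2 = algebraMap F K (a : F)) (g : K ≃ₐ[F] K) :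
    g α = α ∨ g α = -α := by
  apply sq_root_cases
  rw [← map_pow, hα, AlgEquiv.commutes]

/-- `qchi α` is the Kummer character of `a = α ^ 2` -/
lemma isChi_qchi {a : Fˣ} {α : K} (hα : α ^ 2 = algebraMap F K (a : F)) :
    IsChi (K := K) 2 (-1 : F) a (qchi α) := by
  intro β hβ g
  have h1 : ∀ γ : K, (g γ = γ ∨ g γ = -γ) → (β = γ ∨ β = -γ) → (g β = β ↔ g γ = γ) := by
    intro γ _ h
    rcases h with h | h
    · rw [h]
    · rw [h, map_neg, neg_inj]
  have h2 : β = α ∨ β = -α := sq_root_cases (by rw [hα, hβ])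
  have h3 := h1 α (root_cases hα g) h2
  rw [map_neg, map_one]
  by_cases h4 : g α = α
  · have e : qchi α g = 0 := if_pos h4
    rw [e, val_zero2, pow_zero, one_mul]
    exact h3.2 h4
  · have e : qchi α g = 1 := if_neg h4
    rw [e, val_one2, pow_one, neg_one_mul]
    exact (root_cases hβ g).resolve_left fun h5 => h4 (h3.1 h5)

lemma mem_zpowers_inv {τ : K ≃ₐ[F] K} (h : Inv τ) {σ : K ≃ₐ[F] K}
    (hσ : σ ∈ Subgroup.zpowers τ) : σ = 1 ∨ σ = τ := by
  have h2 : τ ^ 2 = 1 := by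
    ext x
    rw [pow_two]
    exact h.inv x
  obtain ⟨n, rfl⟩ := hσ
  rcases Int.even_or_odd' n with ⟨k, hk | hk⟩
  · left
    change τ ^ n = 1
    rw [hk, zpow_mul]
    have : τ ^ (2 : ℤ) = 1 := by exact_mod_cast h2
    rw [this, one_zpow]
  · right
    change τ ^ n = τ
    rw [hk, zpow_add, zpow_mul, zpow_one]
    have : τ ^ (2 : ℤ) = 1 := by exact_mod_cast h2
    rw [this, one_zpow, one_mul]

/-- an element is positive iff its square roots are fixed by the involution -/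
lemma mem_Pos_iff_fx {τ : K ≃ₐ[F] K} (h : Inv τ) (t : Fˣ) :
    t ∈ Pos τ ↔ Fx (K := K) 2 (Subgroup.zpowers τ) t := by
  constructor
  · rintro ⟨w, hw, hw2⟩ α hα σ hσ
    rcases mem_zpowers_inv h hσ with rfl | rfl
    · rfl
    · rcases sq_root_cases (α := w) (β := α) (by rw [hw2, hα]) with h1 | h1
      · rw [h1, hw]
      · rw [h1, map_neg, hw]
  · intro hf
    obtain ⟨y, hy⟩ := h.root (algebraMap F K (t : F))
    exact ⟨y, hf y hy τ (Subgroup.mem_zpowers τ), hy⟩

/-- if the symbol of `a` and `b` is zero at the involution, then `a` or `b` is positive -/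
lemma locZ_inv {τ : K ≃ₐ[F] K} (h : Inv τ) {a b : Fˣ}
    (hab : LocZ 2 (-1 : F) (Subgroup.zpowers τ) a b) : a ∈ Pos τ ∨ b ∈ Pos τ := by
  by_contra hcon
  rw [not_or] at hcon
  obtain ⟨ha, hb⟩ := hcon
  obtain ⟨α, hα⟩ := h.root (algebraMap F K (a : F))
  obtain ⟨β, hβ⟩ := h.root (algebraMap F K (b : F))
  obtain ⟨ρ, -, hρ⟩ := hab _ _ (isChi_qchi hα) (isChi_qchi hβ)
  have ha1 : τ α ≠ α := fun h1 => ha ⟨α, h1, hα⟩
  have hb1 : τ β ≠ β := fun h1 => hb ⟨β, h1, hβ⟩
  have e1 : qchi α τ = 1 := if_neg ha1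
  have e2 : qchi β τ = 1 := if_neg hb1
  have e3 : qchi α (1 : K ≃ₐ[F] K) = 0 := if_pos rfl
  let t : Subgroup.zpowers τ := ⟨τ, Subgroup.mem_zpowers τ⟩
  have ht : t * t = 1 := by
    apply Subtype.ext
    change τ * τ = 1
    ext x
    exact h.inv x
  have h1 : qchi α ((1 : Subgroup.zpowers τ) : K ≃ₐ[F] K) *
      qchi β ((1 : Subgroup.zpowers τ) : K ≃ₐ[F] K) = ρ 1 + ρ 1 - ρ (1 * 1) := hρ 1 1
  have h2 : qchi α (t : K ≃ₐ[F] K) * qchi β (t : K ≃ₐ[F] K) = ρ t + ρ t - ρ (t * t) := hρ t t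
  rw [ht] at h2
  have h3 : ((1 : Subgroup.zpowers τ) : K ≃ₐ[F] K) = 1 := rfl
  have h4 : ((t : Subgroup.zpowers τ) : K ≃ₐ[F] K) = τ := rfl
  rw [h3, e3, zero_mul, mul_one, add_sub_cancel_right] at h1
  rw [h4, e1, e2, ← h1, sub_zero, one_mul] at h2
  rcases zmod2_cases (ρ t) with h5 | h5
  · rw [h5] at h2
    exact absurd h2 (by decide)
  · rw [h5] at h2
    exact absurd h2 (by decide)

/-- **Involutions are good.** -/
theorem goodZ_inv {τ : K ≃ₐ[F] K} (h : Inv τ) :
    GoodZ 2 (-1 : F) (Subgroup.zpowers τ) (Pos τ) where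
  mem := mem_Pos_iff_fx h
  lift a b hab := by
    rcases locZ_inv h hab with h1 | h1
    · exact Or.inl h1
    · exact Or.inr (Or.inl h1)

/-! ### the group generated by the involution -/

lemma inv_sq {τ : K ≃ₐ[F] K} (h : Inv τ) : τ ^ 2 = 1 := by
  ext x
  rw [pow_two]
  exact h.inv x

/-- the order is two -/
theorem card_zpowers_inv {τ : K ≃ₐ[F] K} (h : Inv τ) : Nat.card (Subgroup.zpowers τ) = 2 := by
  rw [Nat.card_zpowers]
  exact orderOf_eq_prime (inv_sq h) h.ne

/-- finite subgroups are closed -/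
theorem isClosed_zpowers_inv [Algebra.IsIntegral F K] {τ : K ≃ₐ[F] K} (h : Inv τ) :
    IsClosed (Subgroup.zpowers τ : Set (K ≃ₐ[F] K)) := by
  have : T2Space (K ≃ₐ[F] K) := krullTopology_t2
  apply Set.Finite.isClosed
  have h1 : (Subgroup.zpowers τ : Set (K ≃ₐ[F] K)) ⊆ {1, τ} := by
    intro σ hσ
    rcases mem_zpowers_inv h hσ with rfl | rfl
    · exact Or.inl rfl
    · exact Or.inr rfl
  exact (Set.toFinite _).subset h1

/-- an involution of a field closed under square roots -/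
theorem inv_of_card {τ : K ≃ₐ[F] K} (two : (2 : K) ≠ 0) (root : ∀ x : K, ∃ y : K, y ^ 2 = x)
    (ne : τ ≠ 1) (h : τ * τ = 1) : Inv τ :=
  ⟨two, root, ne, fun x => by
    rw [← AlgEquiv.mul_apply, h, AlgEquiv.one_apply]⟩

/-- first cohomology: the elements fixed by the involution are squares up to sign -/
theorem h1_inv {τ : K ≃ₐ[F] K} (h : Inv τ) {x : K}
    (hx : ∀ σ ∈ Subgroup.zpowers τ, σ x = x) :
    ∃ (t : Fˣ) (l : K), (∀ σ ∈ Subgroup.zpowers τ, σ l = l) ∧
      x = algebraMap F K (t : F) * l ^ 2 := by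
  have key : ∀ l : K, τ l = l → ∀ σ ∈ Subgroup.zpowers τ, σ l = l := by
    intro l hl σ hσ
    rcases mem_zpowers_inv h hσ with rfl | rfl
    · rfl
    · exact hl
  rcases h.tot (hx τ (Subgroup.mem_zpowers τ)) with ⟨l, hl, hl2⟩ | ⟨l, hl, hl2⟩
  · exact ⟨1, l, key l hl, by rw [Units.val_one, map_one, one_mul, hl2]⟩
  · exact ⟨-1, l, key l hl, by rw [Units.val_neg, Units.val_one, map_neg, map_one, hl2]; ring⟩

/-! ### restriction to the smaller ground field -/

section res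

variable {E : Type} [Field E] [Algebra F E] [Algebra E K] [IsScalarTower F E K]

lemma resS_apply (σ : K ≃ₐ[E] K) (x : K) : resS F E K σ x = σ x := rfl

lemma sq_resS {τ : K ≃ₐ[E] K} {x : K} : Sq (resS F E K τ) x ↔ Sq τ x := Iff.rfl

/-- involutions go down -/
theorem inv_resS {τ : K ≃ₐ[E] K} (h : Inv τ) : Inv (resS F E K τ) where
  two := h.two
  root := h.root
  ne := by
    intro h1
    apply h.ne
    ext x
    have := AlgEquiv.congr_fun h1 x
    exact this
  inv := h.inv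

lemma zpowers_resS (τ : K ≃ₐ[E] K) :
    (Subgroup.zpowers τ).map (resS F E K) = Subgroup.zpowers (resS F E K τ) :=
  MonoidHom.map_zpowers _ _

end res

/-! ### conjugates -/

/-- conjugates of involutions -/
theorem inv_conj {τ : K ≃ₐ[F] K} (h : Inv τ) (g : K ≃ₐ[F] K) : Inv (g * τ * g⁻¹) where
  two := h.two
  root := h.root
  ne := by
    intro h1
    apply h.ne
    rw [mul_inv_eq_one] at h1
    exact mul_left_cancel (h1.trans (mul_one g).symm)
  inv x := by
    have h2 : τ * τ = 1 := by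
      ext y; exact h.inv y
    have h1 : (g * τ * g⁻¹) * (g * τ * g⁻¹) = 1 := by
      calc (g * τ * g⁻¹) * (g * τ * g⁻¹) = g * (τ * τ) * g⁻¹ := by group
        _ = 1 := by rw [h2]; group
    have h3 := AlgEquiv.congr_fun h1 x
    exact h3

/-- the conjugate of the group of an involution, if `τ' g = g τ` -/
theorem conj_mem_zpowers {τ τ' : K ≃ₐ[F] K} (h' : Inv τ') {g : K ≃ₐ[F] K}
    (hg : ∀ x, τ' (g x) = g (τ x)) {σ : K ≃ₐ[F] K} (hσ : σ ∈ Subgroup.zpowers τ') :
    g⁻¹ * σ * g ∈ Subgroup.zpowers τ := by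
  have e : τ' * g = g * τ := by
    ext x; exact hg x
  rcases mem_zpowers_inv h' hσ with rfl | rfl
  · have : g⁻¹ * 1 * g = 1 := by group
    rw [this]
    exact one_mem _
  · have : g⁻¹ * σ * g = τ := by
      rw [mul_assoc, e]; group
    rw [this]
    exact Subgroup.mem_zpowers τ

end Pool.Agent.Helper10.ETC
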